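import Pool.Agent.H26.EW.TargetsT
import Pool.Agent.H31.PL.Targets
import Pool.Agent.H61.LVP.wWE

/-!
# Row WEH (MP_e21eee_nt): a dense line contains seen cells
-/

set_option autoImplicit false

open Finset MeasureTheory

namespace Pool.Agent.H31.EW

open Pool.Agent.H24.CL Pool.Agent.H24.LV Pool.Agent.H31.LV Pool.Agent.H61.LVP

theorem detH (hCO : L_CO) (hRU : W_RU) {k : ℕ}
    {C₁ : ℝ} (h1 : ∀ (D N : ℕ) (b : X k) (c : ℕ → ℝ) (M : ℝ), 1 ≤ D → Lft b c →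
      1 ≤ M → 16 * M ≤ N → 1 / M ≤ VD D N b → ∃ q : ℕ, 1 ≤ q ∧ (q : ℝ) ≤ C₁ * M ^ C₁ * N ∧
        Near k (q * D) (C₁ * M ^ C₁) ((D : ℝ) * N) c)
    {C₂ : ℝ} (h2 : ∀ (q D G N x : ℕ) (c : ℕ → ℝ) (R : ℝ), 1 ≤ q → 1 ≤ D → 1 ≤ G →
      1 ≤ N → x < G → 0 ≤ R → Near k (q * (D * G)) R (((D * G : ℕ) : ℝ) * N) c →
        Near k (q * D) (C₂ * R) ((D : ℝ) * N) (phr k G x c))
    {C₃ : ℝ} (hC₃ : 1 ≤ C₃) (h3 : ∀ (q D N x : ℕ) (b : X k) (c : ℕ → ℝ) (R : ℝ), Lft b c →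
      1 ≤ q → 1 ≤ D → 1 ≤ N → x < D → Nat.Coprime q D → 1 ≤ R → (q : ℝ) ≤ R →
      Near k (q * D) R ((D : ℝ) * N) c →
      ∃ (f : Fin k → ℤ) (η : Fin k → ℝ) (τ ξ : ℝ), -1 ≤ τ ∧ τ ≤ 0 ∧
      (∀ i : Fin k, i.val ≠ 0 → phi D x b i = (((f i : ℝ) / q + η i : ℝ) : UnitAddCircle)) ∧
      (∀ i : Fin k, i.val ≠ 0 → |η i| ≤ C₃ * R / (N : ℝ) ^ (i.val + 1)) ∧
      (∀ i : Fin k, i.val = 0 → phi D x b i = (ξ : UnitAddCircle)) ∧
      VD D N b ≤ VF q f (N : ℝ) η τ ξ + C₃ * R ^ 2 / D)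
    {M κ Mp R₀ R M₂ : ℝ} {N : ℕ} {S : Finset ℕ} {b : X k} (hM : 0 < M) (hκ : 0 ≤ κ)
    (hMp1 : 1 ≤ Mp) (hMp : 1 / Mp ≤ κ / 2 / (64 * M)) (h16 : 16 * Mp ≤ N)
    (hC₁ : 0 ≤ C₁) (hR1 : 1 ≤ R₀) (hRq : C₁ * Mp ^ C₁ * N ≤ R₀) (hRE : C₂ * (C₁ * Mp ^ C₁) ≤ R₀)
    (hbig : 2 * Mp * C₃ * R₀ ^ 3 ≤ (DS S : ℝ)) (hM₂ : 2 * Mp ≤ M₂) (hR : C₃ * R₀ ≤ R)
    (hS : ∀ p ∈ S, p.Prime)
    (hden : κ ≤ hd (DS S) {v : X k | M ^ (-(1 / 2 : ℝ)) / 8 ≤ ‖u N v‖} b) :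
    ∃ S₁ ⊆ S, ∀ x < DS S,
      κ / 2 ≤ hd (DS S₁) {v : X k | M ^ (-(1 / 2 : ℝ)) / 8 ≤ ‖u N v‖}
        (phi (DS S / DS S₁) (x % (DS S / DS S₁)) b) →
      phi (DS S) x b ∈ WS k N R M₂ := by
  have hDS : 0 < DS S := by
    unfold DS
    exact Finset.prod_pos fun p hp => (hS p hp).pos
  have hN1 : 1 ≤ N := by
    have : (1 : ℝ) ≤ N := by linarith
    exact_mod_cast this
  have hNr : (0 : ℝ) < N := by exact_mod_cast hN1
  have hMp0 : 0 < Mp := by linarith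
  -- all of `S`
  obtain ⟨c, hc⟩ := ex_Lft b
  have hV0 : 1 / Mp ≤ VD (DS S) N b := by
    refine hMp.trans (le_trans ?_ (VD_ge b hM hden))
    have h4 : κ / 2 ≤ κ := by linarith
    gcongr
  obtain ⟨q, hq1, hqN, hnear⟩ := h1 (DS S) N b c Mp hDS hc hMp1 h16 hV0
  -- the primes which do not divide `q`
  obtain ⟨S₁, hS₁, D₂, hD, hD₂q, hcop, hD₁0, hD₂0⟩ := split hS q
  refine ⟨S₁, hS₁, fun x hx hden1 => ?_⟩
  set D₁ := DS S₁ with hD₁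
  have hV1 : 1 / Mp ≤ VD D₁ N (phi D₂ (x % D₂) b) := by
    rw [hD, Nat.mul_div_cancel_left _ hD₁0] at hden1
    exact hMp.trans (VD_ge _ hM hden1)
  have hMC : 0 ≤ C₁ * Mp ^ C₁ := mul_nonneg hC₁ (Real.rpow_nonneg hMp0.le _)
  have hnear2 : Near k (q * D₁) (C₂ * (C₁ * Mp ^ C₁)) ((D₁ : ℝ) * N) (phr k D₂ (x % D₂) c) := by
    refine h2 q D₁ D₂ N (x % D₂) c _ hq1 hD₁0 hD₂0 hN1 (Nat.mod_lt _ hD₂0) hMC ?_
    rw [hD] at hnear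
    exact hnear
  have hqR : (q : ℝ) ≤ R₀ := hqN.trans hRq
  have hxD : x / D₂ < D₁ := by
    rw [Nat.div_lt_iff_lt_mul hD₂0]
    rw [hD] at hx
    exact hx
  obtain ⟨f, η, τ, ξ, hτ1, hτ0, hw, hη, hw0, hVF⟩ := h3 q D₁ N (x / D₂) (phi D₂ (x % D₂) b)
    (phr k D₂ (x % D₂) c) R₀ (Lft_phr hc D₂ (x % D₂)) hq1 hD₁0 hN1 hxD hcop hR1 hqR
    (Near_mono hRE (by positivity) hnear2)
  have hphi : phi D₁ (x / D₂) (phi D₂ (x % D₂) b) = phi (DS S) x b := by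
    rw [hCO.1 k D₁ D₂ (x / D₂) (x % D₂) b, hD, Nat.mod_add_div]
  rw [hphi] at hw hw0
  -- the functional is large
  have hD₁big : (DS S : ℝ) ≤ D₁ * R₀ := by
    rw [hD]
    push_cast
    have h4 : (D₂ : ℝ) ≤ q := by exact_mod_cast Nat.le_of_dvd hq1 hD₂q
    have h5 : (0 : ℝ) ≤ D₁ := Nat.cast_nonneg _
    exact mul_le_mul_of_nonneg_left (h4.trans hqR) h5
  have hD₁r : (0 : ℝ) < D₁ := by exact_mod_cast hD₁0
  have hsm : C₃ * R₀ ^ 2 / D₁ ≤ 1 / (2 * Mp) := by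
    rw [div_le_div_iff₀ hD₁r (by positivity)]
    have h6 : 2 * Mp * C₃ * R₀ ^ 2 * R₀ ≤ D₁ * R₀ := by
      calc 2 * Mp * C₃ * R₀ ^ 2 * R₀ = 2 * Mp * C₃ * R₀ ^ 3 := by ring
        _ ≤ _ := hbig.trans hD₁big
    have h7 := le_of_mul_le_mul_right h6 (by linarith)
    linarith
  have hVFge : 1 / M₂ ≤ VF q f (N : ℝ) η τ ξ := by
    have h8 : 1 / M₂ ≤ 1 / (2 * Mp) := one_div_le_one_div_of_le (by positivity) hM₂
    have h9 : 1 / Mp = 1 / (2 * Mp) + 1 / (2 * Mp) := by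
      field_simp
      norm_num
    linarith
  obtain ⟨q', f', hq'1, hq'q, hfrac, hred, hVFe⟩ := hRU k q f hq1
  rw [hVFe] at hVFge
  have hR₀R : R₀ ≤ R := by
    refine le_trans ?_ hR
    exact le_mul_of_one_le_left (by linarith) hC₃
  refine ⟨q', f', η, τ, ξ, hq'1, ?_, ?_, hred, ?_, hτ1, hτ0, hw0, hVFge⟩
  · have : (q' : ℝ) ≤ q := by exact_mod_cast hq'q
    linarith
  · intro i hi
    rw [hw i hi, hfrac i hi]
  · intro i hi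
    refine (hη i hi).trans ?_
    have e1 : (N : ℝ) ^ (-((i.val : ℝ) + 1)) = ((N : ℝ) ^ (i.val + 1))⁻¹ := by
      rw [Real.rpow_neg hNr.le]
      congr 1
      rw [← Real.rpow_natCast]
      congr 1
      push_cast
      ring
    rw [e1, div_eq_mul_inv]
    exact mul_le_mul_of_nonneg_right hR (by positivity)

/-- WEH. -/
theorem pf_WEH (hCO : L_CO) (hDL : W_DL) (hTF : W_TF) (hEQ : W_EQ) (hRU : W_RU) :
    Pool.Agent.H26.EW.T_WEH := by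
  intro k hk C₄ hC₄
  obtain ⟨C₁, hC₁, h1⟩ := hDL k (by omega)
  obtain ⟨C₂, hC₂, h2⟩ := hTF k
  obtain ⟨C₃, hC₃, h3⟩ := hEQ k (by omega)
  set A : ℝ := 2 * C₁ + C₄ + 1 with hA
  refine ⟨3 * A + 4, A + 1, max (C₂ * C₁ * 128 ^ C₁) (max (256 * C₃) 1), by linarith,
    by linarith, (le_max_right _ _).trans (le_max_right _ _), ?_⟩
  -- the threshold
  set T : ℝ := C₂ * C₁ * 128 ^ C₁ with hT
  have hT1 : 1 ≤ (128 : ℝ) ^ C₁ := Real.one_le_rpow (by norm_num) (by linarith)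
  intro M κ N S b hM0 hκ hκ1 hNlo hNhi hS hDS hden
  have hM1 : 1 ≤ M := ((le_max_right _ _).trans (le_max_right _ _)).trans hM0
  have hMT : T ≤ M := (le_max_left _ _).trans hM0
  have hM128 : 256 * C₃ ≤ M := ((le_max_left _ _).trans (le_max_right _ _)).trans hM0
  have hMC₃ : C₃ ≤ M := by linarith
  have hMp : 0 < M := by linarith
  have hκ0 : 0 < κ := lt_of_lt_of_le (by positivity) hκ
  set Mp : ℝ := 128 * M / κ with hMpdef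
  have hrp : ∀ y z : ℝ, y ≤ z → M ^ y ≤ M ^ z := fun y z h =>
    Real.rpow_le_rpow_of_exponent_le hM1 h
  have hMp1 : 1 ≤ Mp := by
    rw [hMpdef, le_div_iff₀ hκ0]
    linarith
  have hMp2 : Mp ≤ 128 * M ^ (2 : ℝ) := by
    rw [hMpdef, div_le_iff₀ hκ0, Real.rpow_two]
    have h4 : 1 ≤ M * κ := by
      rw [div_le_iff₀ hMp] at hκ
      linarith
    nlinarith
  have hMp0 : 0 < Mp := by linarith
  -- `R₀ = M^A`
  have hMpC : Mp ^ C₁ ≤ 128 ^ C₁ * M ^ (2 * C₁) := by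
    calc Mp ^ C₁ ≤ (128 * M ^ (2 : ℝ)) ^ C₁ := Real.rpow_le_rpow hMp0.le hMp2 (by linarith)
      _ = 128 ^ C₁ * M ^ (2 * C₁) := by
        rw [Real.mul_rpow (by norm_num) (by positivity), ← Real.rpow_mul hMp.le]
  have hRE : C₂ * (C₁ * Mp ^ C₁) ≤ M ^ (2 * C₁ + 1) := by
    calc C₂ * (C₁ * Mp ^ C₁) ≤ C₂ * (C₁ * (128 ^ C₁ * M ^ (2 * C₁))) := by gcongr
      _ = T * M ^ (2 * C₁) := by rw [hT]; ring
      _ ≤ M * M ^ (2 * C₁) := by gcongr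
      _ = M ^ (2 * C₁ + 1) := by
        rw [Real.rpow_add hMp, Real.rpow_one]
        ring
  have hRq' : C₁ * Mp ^ C₁ ≤ M ^ (2 * C₁ + 1) := by
    refine le_trans ?_ hRE
    refine le_mul_of_one_le_left (by positivity) hC₂
  refine detH hCO hRU h1 h2 hC₃ h3 (κ := κ) (Mp := Mp) (R₀ := M ^ A) hMp hκ0.le hMp1 ?_ ?_
    (by linarith) (Real.one_le_rpow hM1 (by linarith)) ?_ ?_ ?_ ?_ ?_ hS hden
  · rw [hMpdef]
    refine le_of_eq ?_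
    field_simp
    try norm_num
  · refine le_trans ?_ hNlo
    have h5 : 0 ≤ M / κ := by positivity
    have e1 : 16 * Mp = 2048 * (M / κ) := by rw [hMpdef]; ring
    have e2 : 4096 * M / κ = 4096 * (M / κ) := by ring
    rw [e1, e2]
    linarith
  · calc C₁ * Mp ^ C₁ * N ≤ M ^ (2 * C₁ + 1) * M ^ C₄ := by gcongr
      _ = M ^ A := by
        rw [← Real.rpow_add hMp]
        congr 1
        rw [hA]
        ring
  · exact hRE.trans (hrp _ _ (by linarith))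
  · have e1 : (M ^ A) ^ 3 = M ^ (3 * A) := by
      rw [← Real.rpow_natCast, ← Real.rpow_mul hMp.le]
      congr 1
      push_cast
      ring
    rw [e1]
    calc 2 * Mp * C₃ * M ^ (3 * A) ≤ 2 * (128 * M ^ (2 : ℝ)) * C₃ * M ^ (3 * A) := by gcongr
      _ = (256 * C₃) * (M ^ (2 : ℝ) * M ^ (3 * A)) := by ring
      _ ≤ M * (M ^ (2 : ℝ) * M ^ (3 * A)) := by gcongr
      _ = M ^ (1 + (2 + 3 * A)) := by
        rw [Real.rpow_add hMp 1 (2 + 3 * A), Real.rpow_add hMp 2 (3 * A), Real.rpow_one]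
      _ ≤ M ^ (3 * A + 4) := hrp _ _ (by linarith)
      _ ≤ DS S := hDS
  · rw [hMpdef]
    refine le_of_eq ?_
    ring
  · calc C₃ * M ^ A ≤ M * M ^ A := by gcongr
      _ = M ^ (A + 1) := by
        rw [Real.rpow_add hMp A 1, Real.rpow_one]
        ring

end Pool.Agent.H31.EW
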